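import Mathlib
import Pool.Agent.Q296.E2Chain

namespace Pool.Agent.Results.MP_36fb0d_co.NoIdempotent

open Pool.Agent.Q296 Pool.Agent.Q296.E2Idem Filter

/-- Step 1: `(m^u)^2 → 1`. -/
lemma step1 {p : Ultrafilter ℕ+} (hE : E2 p p = p) {l : ℕ} (hl : l = 2 ∨ l = 3) (k : ℕ) :
    ∀ᶠ m : ℕ+ in (p : Filter ℕ+), (l : ℤ) ^ k ∣ (((u l m) ^ 2 : ℕ) : ℤ) - 1 := by
  have hlp : l.Prime := by rcases hl with rfl | rfl <;> norm_num
  by_contra hcon
  have hk : ∀ᶠ m : ℕ+ in (p : Filter ℕ+), ¬ (l : ℤ) ^ k ∣ (((u l m) ^ 2 : ℕ) : ℤ) - 1 :=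
    Ultrafilter.eventually_not.mpr hcon
  have hNZ : NeZero (l ^ (k + k)) := ⟨pow_ne_zero _ hlp.ne_zero⟩
  obtain ⟨r, hr⟩ := exists_const p (fun m : ℕ+ => (((u l m) ^ 2 : ℕ) : ZMod (l ^ (k + k))))
  have hr2 := (idem_iff hE _).mp hr
  obtain ⟨n, hn1, hn2⟩ := (hr2.and hk).exists
  obtain ⟨m, ⟨hm1, hm2⟩, hm3⟩ := ((hn1.and hr).and hk).exists
  set a : ℕ := (u l m) ^ 2 with ha
  have hm0 : (m : ℕ) ≠ 0 := m.pos.ne'
  have hla : ¬ l ∣ a := fun h => not_dvd_u hlp hm0 (hlp.dvd_of_dvd_pow h)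
  have e1 : ((a ^ (n : ℕ) : ℕ) : ZMod (l ^ (k + k))) = (a : ℕ) := by
    have : (u l ((m ^ (n : ℕ) : ℕ+) : ℕ)) ^ 2 = a ^ (n : ℕ) := by
      rw [PNat.pow_coe, u_pow, ha, ← pow_mul, ← pow_mul, mul_comm]
    rw [← this, hm1, ← hm2]
  obtain ⟨j, hj⟩ : ∃ j, (n : ℕ) = j + 1 := ⟨n - 1, by have := n.pos; omega⟩
  have e2 : ((a ^ j : ℕ) : ZMod (l ^ (k + k))) = 1 := by
    apply mul_cancel_unit hlp hla
    rw [hj, pow_succ] at e1
    rw [mul_one]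
    refine Eq.trans ?_ e1
    push_cast
    ring
  have e3 : (l : ℤ) ^ (k + k) ∣ (a : ℤ) ^ j - 1 := by
    have h1 : (((a : ℤ) ^ j - 1 : ℤ) : ZMod (l ^ (k + k))) = 0 := by
      push_cast at e2 ⊢
      rw [e2, sub_self]
    have h2 := (ZMod.intCast_zmod_eq_zero_iff_dvd _ _).mp h1
    exact_mod_cast h2
  have h1 : (l : ℤ) ^ 2 ∣ (a : ℤ) - 1 ∨ (l = 3 ∧ (l : ℤ) ∣ (a : ℤ) - 1) := by
    have hnd := not_dvd_u (l := l) hlp hm0
    rcases hl with rfl | rfl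
    · left
      rw [ha]
      push_cast
      obtain ⟨q, hq⟩ : ∃ q, u 2 m = 2 * q + 1 := ⟨u 2 m / 2, by omega⟩
      rw [hq]
      push_cast
      exact ⟨q ^ 2 + q, by ring⟩
    · right
      refine ⟨rfl, ?_⟩
      rw [ha]
      push_cast
      have h3 : u 3 m % 3 = 1 ∨ u 3 m % 3 = 2 := by omega
      obtain ⟨q, hq⟩ : ∃ q, u 3 m = 3 * q + u 3 m % 3 := ⟨u 3 m / 3, by omega⟩
      rcases h3 with h3 | h3
      · rw [hq, h3]
        push_cast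
        exact ⟨3 * q ^ 2 + 2 * q, by ring⟩
      · rw [hq, h3]
        push_cast
        exact ⟨3 * q ^ 2 + 4 * q + 1, by ring⟩
  have h2 := lte hl a j k k h1 hm3 e3
  -- l^k ∣ n - 1, contradiction at n
  apply hn2
  have hk0 : k ≠ 0 := by
    rintro rfl
    simp at hm3
  have hln : ¬ l ∣ (n : ℕ) := by
    intro h
    have h3 : l ∣ j := (dvd_pow_self l hk0).trans h2
    have h4 : l ∣ 1 := by
      rw [hj] at h
      exact (Nat.dvd_add_right h3).mp h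
    exact hlp.one_lt.ne' (Nat.dvd_one.mp h4)
  rw [u_of_not_dvd hlp hln]
  obtain ⟨q, hq⟩ := h2
  rw [hj, hq]
  push_cast
  exact ⟨q * (l ^ k * q + 2), by ring⟩

/-- Step 2: `n^u → 1`. -/
lemma step2 {p : Ultrafilter ℕ+} (hE : E2 p p = p) {l : ℕ} (hl : l = 2 ∨ l = 3)
    (hu : ∀ᶠ m : ℕ+ in (p : Filter ℕ+), u l m ≠ 1) (K : ℕ) (hK : 1 ≤ K) :
    ∀ᶠ n : ℕ+ in (p : Filter ℕ+), ((u l n : ℕ) : ZMod (l ^ K)) = 1 := by
  have hlp : l.Prime := by rcases hl with rfl | rfl <;> norm_num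
  have hNZ : NeZero (l ^ K) := ⟨pow_ne_zero _ hlp.ne_zero⟩
  obtain ⟨r, hr⟩ := exists_const p (fun m : ℕ+ => ((u l ((u l m) ^ 2 - 1) : ℕ) : ZMod (l ^ K)))
  have hr2 := (idem_iff hE _).mp hr
  filter_upwards [hr2] with n hn
  obtain ⟨m, ⟨⟨hm1, hm2⟩, hm3⟩, hm4⟩ := (((hn.and hr).and
    (step1 hE hl ((n : ℕ).factorization l + K))).and hu).exists
  have hm0 : (m : ℕ) ≠ 0 := m.pos.ne'
  have hupos : 0 < u l m := u_pos hm0
  have hu2 : 2 ≤ u l m := by omega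
  obtain ⟨z, hz⟩ : ∃ z, (u l m) ^ 2 = 1 + z := ⟨(u l m) ^ 2 - 1, by
    have : 0 < (u l m) ^ 2 := by positivity
    omega⟩
  have hz0 : z ≠ 0 := by
    rintro rfl
    nlinarith
  have hzd : l ^ ((n : ℕ).factorization l + K) ∣ z := by
    have h1 : (((u l m) ^ 2 : ℕ) : ℤ) - 1 = (z : ℤ) := by rw [hz]; push_cast; ring
    rw [h1] at hm3
    exact_mod_cast hm3
  have e1 := u_pow_sub_one hlp z n K hz0 n.pos.ne' hK hzd
  have e2 : (u l ((m ^ (n : ℕ) : ℕ+) : ℕ)) ^ 2 = (1 + z) ^ (n : ℕ) := by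
    rw [PNat.pow_coe, u_pow, ← hz, ← pow_mul, ← pow_mul, mul_comm]
  rw [e2, e1] at hm1
  rw [hz, Nat.add_sub_cancel_left] at hm2
  apply mul_cancel_unit hlp (not_dvd_u (l := l) hlp hz0)
  rw [hm1, mul_one, hm2]

lemma step2' {p : Ultrafilter ℕ+} (hE : E2 p p = p) {l : ℕ} (hl : l = 2 ∨ l = 3)
    (hu : ∀ᶠ m : ℕ+ in (p : Filter ℕ+), u l m ≠ 1) (K : ℕ) :
    ∀ᶠ n : ℕ+ in (p : Filter ℕ+), l ^ K ∣ u l n - 1 := by
  rcases Nat.eq_zero_or_pos K with rfl | hK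
  · simp
  · filter_upwards [step2 hE hl hu K hK] with n hn
    have hupos : 1 ≤ u l n := u_pos n.pos.ne'
    have h1 : ((1 : ℕ) : ZMod (l ^ K)) = (u l n : ℕ) := by rw [hn]; simp
    rw [ZMod.natCast_eq_natCast_iff] at h1
    exact (Nat.modEq_iff_dvd' hupos).mp h1

/-- Limits along an ultrafilter in the `l`-adic integers. -/
lemma exists_lim (l : ℕ) [Fact l.Prime] (p : Ultrafilter ℕ+) (f : ℕ+ → ℤ_[l]) :
    ∃ L : ℤ_[l], ∀ K : ℕ, ∀ᶠ m in (p : Filter ℕ+), (l : ℤ_[l]) ^ K ∣ f m - L := by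
  obtain ⟨L, _, hL⟩ := isCompact_univ.ultrafilter_le_nhds (p.map f) (by simp)
  refine ⟨L, fun K => ?_⟩
  have hopen : IsOpen {x : ℤ_[l] | (l : ℤ_[l]) ^ K ∣ x - L} := by
    have h1 : {x : ℤ_[l] | (l : ℤ_[l]) ^ K ∣ x - L} =
        {x | ‖x - L‖ < (l : ℝ) ^ (-(K : ℤ) + 1)} := by
      ext x
      simp only [Set.mem_ofPred_eq]
      rw [← PadicInt.norm_le_pow_iff_norm_lt_pow_add_one, PadicInt.norm_le_pow_iff_mem_span_pow,
        Ideal.mem_span_singleton]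
    rw [h1]
    exact isOpen_lt (by fun_prop) continuous_const
  have hmem : {x : ℤ_[l] | (l : ℤ_[l]) ^ K ∣ x - L} ∈ nhds L :=
    hopen.mem_nhds (by simp)
  exact hL hmem

/-- Main computation: the chain length goes up by one. -/
lemma main {p : Ultrafilter ℕ+} (hE : E2 p p = p) {l : ℕ} (hl : l = 2 ∨ l = 3)
    (hu : ∀ᶠ m : ℕ+ in (p : Filter ℕ+), u l m ≠ 1) : False := by
  have hlp : l.Prime := by rcases hl with rfl | rfl <;> norm_num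
  have : Fact l.Prime := ⟨hlp⟩
  obtain ⟨L, hL⟩ := exists_lim l p (fun m : ℕ+ => ((u l (u l m - 1) : ℕ) : ℤ_[l]))
  -- natural numbers not divisible by l are units
  have hunit : ∀ w : ℕ, ¬ l ∣ w → IsUnit (w : ℤ_[l]) := by
    intro w hw
    rw [isUnit_iff_not_dvd]
    intro h
    apply hw
    have h2 := (PadicInt.pow_p_dvd_int_iff (p := l) 1 (w : ℤ)).mp (by simpa using h)
    exact_mod_cast (by simpa using h2 : (l : ℤ) ∣ (w : ℤ))
  have hdvd : ∀ (K w : ℕ), l ^ K ∣ w → (l : ℤ_[l]) ^ K ∣ (w : ℤ_[l]) := by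
    rintro K w ⟨s, rfl⟩
    push_cast
    exact Dvd.intro _ rfl
  have hLu : IsUnit L := by
    rw [isUnit_iff_not_dvd]
    intro h
    obtain ⟨m, hm1, hm2⟩ := ((hL 1).and hu).exists
    have hm0 : (m : ℕ) ≠ 0 := m.pos.ne'
    have hupos : 0 < u l m := u_pos hm0
    have hb : u l m - 1 ≠ 0 := by omega
    have h3 := hunit _ (not_dvd_u (l := l) hlp hb)
    rw [isUnit_iff_not_dvd] at h3
    apply h3
    rw [pow_one] at hm1
    have := dvd_add hm1 h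
    simpa using this
  obtain ⟨t, ht⟩ := hLu.exists_right_inv
  -- the key step
  have key : ∀ n : ℕ+, u l n ≠ 1 → ∀ᶠ m : ℕ+ in (p : Filter ℕ+),
      J t ((u l ((m ^ (n : ℕ) : ℕ+) : ℕ) : ℕ) : ℤ_[l]) = 1 + J t ((u l n : ℕ) : ℤ_[l]) := by
    intro n hn
    have hy : ((u l n : ℕ) : ℤ_[l]) ≠ 1 := by
      exact_mod_cast hn
    obtain ⟨K, hK⟩ := J_locConst t _ ((u l n : ℕ) : ℤ_[l]) hy rfl
    filter_upwards [hu, hL (K + 1), step2' hE hl hu ((n : ℕ).factorization l + (K + 1)),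
      step2' hE hl hu (c ((u l n : ℕ) : ℤ_[l]) + 1)] with m hm1 hm2 hm3 hm4
    have hm0 : (m : ℕ) ≠ 0 := m.pos.ne'
    have hupos : 0 < u l m := u_pos hm0
    obtain ⟨b, hb⟩ : ∃ b, u l m = 1 + b := ⟨u l m - 1, by omega⟩
    have hb' : u l m - 1 = b := by omega
    rw [hb'] at hm2 hm3 hm4
    have hb0 : b ≠ 0 := by omega
    obtain ⟨s, hs1, hs2⟩ := pow_sub_one hlp b n (K + 1) hb0 n.pos.ne' (by omega) hm3
    set e := b.factorization l + (n : ℕ).factorization l with he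
    set w : ℕ := u l b * (u l n + l ^ (K + 1) * s) with hw
    have hx : u l ((m ^ (n : ℕ) : ℕ+) : ℕ) = (1 + b) ^ (n : ℕ) := by
      rw [PNat.pow_coe, u_pow, hb]
    have hx1 : (1 + b) ^ (n : ℕ) = 1 + l ^ e * w := by
      have : 1 ≤ (1 + b) ^ (n : ℕ) := Nat.one_le_pow _ _ (by omega)
      omega
    rw [hx, hx1]
    set y : ℤ_[l] := ((1 + l ^ e * w : ℕ) : ℤ_[l]) with hydef
    have hy1 : y - 1 = (l : ℤ_[l]) ^ e * (w : ℤ_[l]) := by
      rw [hydef]; push_cast; ring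
    obtain ⟨d1, d2, d3⟩ := dec (t := t) hy1 (hunit w hs2)
    have hclose : (l : ℤ_[l]) ^ K ∣ F t y - ((u l n : ℕ) : ℤ_[l]) := by
      rw [d3]
      have h1 : (l : ℤ_[l]) ^ K ∣ ((u l b : ℕ) : ℤ_[l]) * t - 1 := by
        have h2 : ((u l b : ℕ) : ℤ_[l]) * t - 1 = (((u l b : ℕ) : ℤ_[l]) - L) * t := by
          rw [sub_mul, ht]
        rw [h2]
        exact Dvd.dvd.mul_right ((pow_dvd_pow _ (by omega)).trans hm2) _
      have h3 : (w : ℤ_[l]) * t - ((u l n : ℕ) : ℤ_[l]) =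
          (((u l b : ℕ) : ℤ_[l]) * t - 1) * ((u l n : ℕ) : ℤ_[l]) +
          (l : ℤ_[l]) ^ K * ((l : ℤ_[l]) * s * ((u l b : ℕ) : ℤ_[l]) * t) := by
        rw [hw]; push_cast; ring
      rw [h3]
      exact dvd_add (Dvd.dvd.mul_right h1 _) (Dvd.intro _ rfl)
    obtain ⟨k1, k2, k3⟩ := hK _ hclose
    have hns : ¬ (l : ℤ_[l]) ^ c y ∣ F t y - 1 := by
      rw [dvd_iff k1, k2, d2, not_le]
      have h4 : c ((u l n : ℕ) : ℤ_[l]) + 1 ≤ b.factorization l :=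
        (hlp.pow_dvd_iff_le_factorization hb0).mp hm4
      omega
    rw [J_step d1 hns, k3]
  -- parity contradiction
  have keyp : ∀ᶠ n : ℕ+ in (p : Filter ℕ+), ∀ᶠ m : ℕ+ in (p : Filter ℕ+),
      (Even (J t ((u l ((m ^ (n : ℕ) : ℕ+) : ℕ) : ℕ) : ℤ_[l])) ↔
        ¬ Even (J t ((u l n : ℕ) : ℤ_[l]))) := by
    filter_upwards [hu] with n hn
    filter_upwards [key n hn] with m hm
    rw [hm, add_comm, Nat.even_add_one]
  by_cases hP : ∀ᶠ x : ℕ+ in (p : Filter ℕ+), Even (J t ((u l x : ℕ) : ℤ_[l]))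
  · have h2 := (idem_iff hE _).mp hP
    obtain ⟨n, ⟨hn1, hn2⟩, hn3⟩ := ((keyp.and h2).and hP).exists
    obtain ⟨m, hm1, hm2⟩ := (hn1.and hn2).exists
    exact (hm1.mp hm2) hn3
  · have hP' : ∀ᶠ x : ℕ+ in (p : Filter ℕ+), ¬ Even (J t ((u l x : ℕ) : ℤ_[l])) :=
      Ultrafilter.eventually_not.mpr hP
    have h2 := (idem_iff hE _).mp hP'
    obtain ⟨n, ⟨hn1, hn2⟩, hn3⟩ := ((keyp.and h2).and hP').exists
    obtain ⟨m, hm1, hm2⟩ := (hn1.and hn2).exists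
    exact hm2 (hm1.mpr hn3)

/-- Every ultrafilter `p` on the positive integers with `E_2(p,p) = p` is principal. -/
theorem result : ∀ p : Ultrafilter ℕ+, E2 p p = p → ∃ n : ℕ+, p = pure n := by
  intro p hE
  by_contra hcon
  push Not at hcon
  have hp : Nonprincipal p := hcon
  by_cases h2 : ∀ᶠ m : ℕ+ in (p : Filter ℕ+), u 2 m ≠ 1
  · exact main hE (Or.inl rfl) h2
  · have h2' : ∀ᶠ m : ℕ+ in (p : Filter ℕ+), u 2 m = 1 := by
      have := Ultrafilter.eventually_not.mpr h2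
      filter_upwards [this] with m hm
      exact not_not.mp hm
    apply main (l := 3) hE (Or.inr rfl)
    filter_upwards [h2', hp.eventually_ge 2] with m hm hm2 h3
    have e2 := pow_mul_u 2 m
    have e3 := pow_mul_u 3 m
    rw [hm, mul_one] at e2
    rw [h3, mul_one] at e3
    -- m is a power of 2 and of 3
    have h5 : 2 ∣ (m : ℕ) := by
      rw [← e2]
      apply dvd_pow_self
      intro h0
      rw [h0, pow_zero] at e2
      omega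
    rw [← e3] at h5
    have := Nat.prime_two.dvd_of_dvd_pow h5
    omega

end Pool.Agent.Results.MP_36fb0d_co.NoIdempotent
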